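import Pool.Agent.Helper19.AAE.Tuples

/-!
# AAE: almost all tuples, relative version, with an exponential saving
-/

set_option autoImplicit false

open Polynomial

namespace Pool.Agent.Helper19.AAE

open Pool.Agent.Helper84.AA
open Pool.Agent.Helper19.AAR (GoodR)

theorem almost_exp_of {q : ℕ} (hq : 16 ≤ q) (k A : ℕ) (hA : 1 ≤ A)
    (hO : ∃ δ : ℝ, 0 < δ ∧ ∃ G : ℕ, OneBig q (2 * A + 1) δ G) :
    ∃ δ : ℝ, 0 < δ ∧ ∃ c : ℝ, 0 < c ∧ ∃ G : ℕ, ∀ p : ℕ, p.Prime → ∀ m : ℕ, G ≤ m →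
      ∀ g : Fin k → ℕ, (∀ i, m ≤ g i ∧ g i ≤ m ^ A) →
      (({h : Fin k → ℤ[X] | (∀ i, h i ∈ traceSet q (g i)) ∧ ¬ GoodR q h}.ncard : ℕ) : ℝ) ≤
        c * Real.exp (-(δ * m)) * (({h : Fin k → ℤ[X] | ∀ i, h i ∈ traceSet q (g i) ∧
          ¬ (p : ℤ) ∣ (h i).coeff 0}.ncard : ℕ) : ℝ) := by
  obtain ⟨δ, hδ, G, hG⟩ := hO
  obtain ⟨G', h⟩ := almost_tuples_exp hq k A hA (δ := min δ (1 / 100))
    (lt_min hδ (by norm_num)) (min_le_right _ _) (hG.mono (min_le_left _ _))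
  refine ⟨min δ (1 / 100) / (4 * (k + 1)), by positivity, ((k : ℝ) + k * k) * 4 * 3 ^ k + 1,
    by positivity, G', fun p hp m hm g hg => ?_⟩
  refine (h p hp m hm g hg).trans ?_
  refine mul_le_mul_of_nonneg_right (mul_le_mul_of_nonneg_right ?_ (Real.exp_pos _).le)
    (Nat.cast_nonneg _)
  linarith

end Pool.Agent.Helper19.AAE
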