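import Pool.Agent.Helper19.AAT.Count

/-!
# AAE: polynomials which are not fine modulo several primes
-/

open Polynomial

namespace Pool.Agent.Helper19.AAE

open Pool.Agent.Helper84.AA
open Pool.Agent.Helper19.AAT

/-- The residues modulo one prime. -/
theorem residues {q g : ℕ} (hg : 1 ≤ g) {u : ℤ[X]} (hu : u.Monic) (hd : u.natDegree = g - 1) {l : ℕ}
    (hl : l.Prime) (hlg : g < l) : ∃ S : Finset ℤ, S.card ≤ g + 1 ∧
      ∀ t : ℤ, ¬ FineAt q (X * u + C t) l → ∃ s ∈ S, (l : ℤ) ∣ t - s := by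
  classical
  have : Fact l.Prime := ⟨hl⟩
  set KK := AlgebraicClosure (ZMod l) with hKK
  set H : KK[X] := (X * u).map (Int.castRingHom KK) with hH
  have hXu : (X * u).Monic := monic_X.mul hu
  have hXud : (X * u).natDegree = g := by
    rw [natDegree_X_mul hu.ne_zero, hd]; omega
  have hHm : H.Monic := hXu.map _
  have hHd : H.natDegree = g := by rw [hH, hXu.natDegree_map, hXud]
  have hchar : CharP KK l :=
    charP_of_injective_algebraMap (algebraMap (ZMod l) KK).injective l
  have hgKK : (g : KK) ≠ 0 := by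
    intro h0
    have h1 := (CharP.cast_eq_zero_iff KK l g).1 h0
    have := Nat.le_of_dvd (by omega) h1
    omega
  have hder : derivative H ≠ 0 := by
    intro h0
    have h1 : (derivative H).coeff (g - 1) = g := by
      rw [coeff_derivative, Nat.sub_add_cancel hg]
      have h5 : H.coeff g = 1 := by rw [← hHd]; exact hHm.coeff_natDegree
      rw [h5, Nat.cast_sub hg]
      ring
    rw [h0, coeff_zero] at h1
    exact hgKK h1.symm
  set T : Finset KK := ((derivative H).roots.toFinset ∪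
    (X ^ 2 - C (4 * (q : KK)) : KK[X]).roots.toFinset).image (fun ξ => - H.eval ξ) with hT
  have hTcard : T.card ≤ g + 1 := by
    have h1 : (derivative H).roots.toFinset.card ≤ g - 1 := by
      refine (Multiset.toFinset_card_le _).trans ((card_roots' _).trans ?_)
      have := natDegree_derivative_le H
      omega
    have h2 : (X ^ 2 - C (4 * (q : KK)) : KK[X]).roots.toFinset.card ≤ 2 := by
      refine (Multiset.toFinset_card_le _).trans ((card_roots' _).trans ?_)
      exact (natDegree_X_pow_sub_C).le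
    have h3 : T.card ≤ _ := Finset.card_image_le
    have h4 := Finset.card_union_le (derivative H).roots.toFinset
      (X ^ 2 - C (4 * (q : KK)) : KK[X]).roots.toFinset
    omega
  have hmem : ∀ t : ℤ, ¬ FineAt q (X * u + C t) l → (t : KK) ∈ T := by
    intro t ht
    have hmt : (X * u + C t).Monic := by
      apply hXu.add_of_left
      refine lt_of_le_of_lt degree_C_le ?_
      rw [Polynomial.degree_eq_natDegree hXu.ne_zero, hXud]
      exact_mod_cast (by omega : 0 < g)
    obtain ⟨ξ, h1, h2⟩ := exists_common hmt ht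
    have hev : ∀ p : ℤ[X], aeval ξ p = (p.map (Int.castRingHom KK)).eval ξ := by
      intro p
      rw [eval_map, aeval_def]
      congr 1
    have h3 : (t : KK) = - H.eval ξ := by
      rw [hev, Polynomial.map_add, map_C, eval_add, eval_C] at h1
      have h4 : (Int.castRingHom KK) t = (t : KK) := rfl
      rw [h4] at h1
      exact eq_neg_of_add_eq_zero_right h1
    rw [hT, Finset.mem_image]
    refine ⟨ξ, ?_, h3.symm⟩
    rw [Finset.mem_union, Multiset.mem_toFinset, Multiset.mem_toFinset]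
    rcases h2 with h2 | h2
    · left
      rw [mem_roots hder, IsRoot.def]
      rw [derivative_add, derivative_C, add_zero, hev, ← derivative_map] at h2
      exact h2
    · right
      rw [mem_roots (X_pow_sub_C_ne_zero (by norm_num) _), IsRoot.def, eval_sub, eval_pow, eval_X,
        eval_C, h2, sub_self]
  -- one integer for each element of `T`
  refine ⟨T.image fun τ => if h : ∃ t : ℤ, (t : KK) = τ then h.choose else 0,
    Finset.card_image_le.trans hTcard, fun t ht => ?_⟩
  have hex : ∃ t' : ℤ, (t' : KK) = (t : KK) := ⟨t, rfl⟩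
  refine ⟨hex.choose, ?_, ?_⟩
  · rw [Finset.mem_image]
    exact ⟨(t : KK), hmem t ht, dif_pos hex⟩
  · have h3 : ((t - hex.choose : ℤ) : KK) = 0 := by
      rw [Int.cast_sub, hex.choose_spec, sub_self]
    exact (CharP.intCast_eq_zero_iff KK l _).1 h3

/-- Residues modulo several primes. -/
theorem residues_set (c : ℕ) (P : ℕ → ℤ → Prop) (L : Finset ℕ) (hL : ∀ l ∈ L, l.Prime)
    (h : ∀ l ∈ L, ∃ S : Finset ℤ, S.card ≤ c ∧ ∀ t : ℤ, P l t → ∃ s ∈ S, (l : ℤ) ∣ t - s) :
    ∃ S : Finset ℤ, S.card ≤ c ^ L.card ∧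
      ∀ t : ℤ, (∀ l ∈ L, P l t) → ∃ s ∈ S, (((∏ l ∈ L, l : ℕ)) : ℤ) ∣ t - s := by
  classical
  induction L using Finset.induction_on with
  | empty => exact ⟨{0}, by simp, fun t _ => ⟨0, by simp, by simp⟩⟩
  | insert l L hlL ih =>
    obtain ⟨S, hS, hSt⟩ := ih (fun x hx => hL x (Finset.mem_insert_of_mem hx))
      (fun x hx => h x (Finset.mem_insert_of_mem hx))
    obtain ⟨S', hS', hSt'⟩ := h l (Finset.mem_insert_self l L)
    have hlp : l.Prime := hL l (Finset.mem_insert_self l L)
    have hcop : Nat.Coprime l (∏ x ∈ L, x) := by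
      refine Nat.Coprime.prod_right fun x hx => ?_
      rw [Nat.coprime_primes hlp (hL x (Finset.mem_insert_of_mem hx))]
      rintro rfl
      exact hlL hx
    have hcopZ : IsCoprime (l : ℤ) ((∏ x ∈ L, x : ℕ) : ℤ) := Nat.isCoprime_iff_coprime.2 hcop
    have hcrt : ∀ p : ℤ × ℤ, ∃ x : ℤ, ((∏ x ∈ L, x : ℕ) : ℤ) ∣ x - p.1 ∧ (l : ℤ) ∣ x - p.2 := by
      rintro ⟨s, s'⟩
      obtain ⟨a, b, hab⟩ := hcopZ
      refine ⟨s * (a * l) + s' * (b * ((∏ x ∈ L, x : ℕ) : ℤ)), ?_, ?_⟩
      · refine ⟨(s' - s) * b, ?_⟩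
        have h1 : a * l = 1 - b * ((∏ x ∈ L, x : ℕ) : ℤ) := by linarith
        rw [h1]
        ring
      · refine ⟨(s - s') * a, ?_⟩
        have h1 : b * ((∏ x ∈ L, x : ℕ) : ℤ) = 1 - a * l := by linarith
        rw [h1]
        ring
    choose f hf using hcrt
    refine ⟨(S ×ˢ S').image f, ?_, ?_⟩
    · refine Finset.card_image_le.trans ?_
      rw [Finset.card_product, Finset.card_insert_of_notMem hlL, pow_succ]
      exact Nat.mul_le_mul hS hS'
    · intro t ht
      obtain ⟨s, hs, h1⟩ := hSt t fun x hx => ht x (Finset.mem_insert_of_mem hx)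
      obtain ⟨s', hs', h2⟩ := hSt' t (ht l (Finset.mem_insert_self l L))
      refine ⟨f (s, s'), Finset.mem_image_of_mem f (Finset.mem_product.2 ⟨hs, hs'⟩), ?_⟩
      obtain ⟨h3, h4⟩ := hf (s, s')
      rw [Finset.prod_insert hlL, Nat.cast_mul]
      refine hcopZ.mul_dvd ?_ ?_
      · have := dvd_sub h2 h4
        rwa [sub_sub_sub_cancel_right] at this
      · have := dvd_sub h1 h3
        rwa [sub_sub_sub_cancel_right] at this

theorem fine_count_set {q g : ℕ} (hg : 1 ≤ g) (L : Finset ℕ) (hL : ∀ l ∈ L, l.Prime ∧ g < l) :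
    (({h ∈ traceSet q g | ∀ l ∈ L, ¬ FineAt q h l}.ncard : ℕ) : ℝ) ≤
      ((g : ℝ) + 1) ^ L.card *
        ((traceSet q g).ncard / ((∏ l ∈ L, l : ℕ) : ℝ) + (preSet q g (g - 1)).ncard) := by
  classical
  set P1 := (preSet_finite q g (g - 1)).toFinset with hP1
  have hP1c : (P1.card : ℝ) = (preSet q g (g - 1)).ncard := by
    rw [Set.ncard_eq_toFinset_card _ (preSet_finite q g (g - 1))]
  have hNsum : ((traceSet q g).ncard : ℝ) = ∑ u ∈ P1, ((Jset q g u).ncard : ℝ) := by
    have h1 := fib (q := q) (g := g) (by omega) fun _ => True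
    simp only [and_true] at h1
    have h2 : {h | h ∈ traceSet q g} = traceSet q g := rfl
    have h3 : ∀ u, {t | t ∈ Jset q g u} = Jset q g u := fun u => rfl
    simp only [h2, h3] at h1
    rw [h1]
    push_cast
    rfl
  have hN : 0 < ∏ l ∈ L, l := Finset.prod_pos fun l hl => (hL l hl).1.pos
  rw [fib hg, hNsum, ← hP1c, ← hP1, Nat.cast_sum]
  calc ∑ u ∈ P1, (({t ∈ Jset q g u | ∀ l ∈ L, ¬ FineAt q (X * u + C t) l}.ncard : ℕ) : ℝ)
      ≤ ∑ u ∈ P1, ((g : ℝ) + 1) ^ L.card *
          (((Jset q g u).ncard : ℝ) / ((∏ l ∈ L, l : ℕ) : ℝ) + 1) := by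
        refine Finset.sum_le_sum fun u hu => ?_
        have hu' : u ∈ preSet q g (g - 1) := by simpa [hP1] using hu
        obtain ⟨hum, hud⟩ := pre_monic (by omega) hu'
        obtain ⟨a, M, hJ⟩ := Jset_Ico q g u
        have hJc : (Jset q g u).ncard = M := by
          rw [hJ, ← Finset.coe_Ico, Set.ncard_coe_finset, Int.card_Ico]
          simp
        obtain ⟨S, hS, hSt⟩ := residues_set (g + 1) (fun l t => ¬ FineAt q (X * u + C t) l) L
          (fun l hl => (hL l hl).1) (fun l hl => residues hg hum hud (hL l hl).1 (hL l hl).2)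
        rw [hJc, hJ]
        have h2 : {t ∈ Set.Ico a (a + (M : ℤ)) | ∀ l ∈ L, ¬ FineAt q (X * u + C t) l} ⊆
            ((S.biUnion fun s => (Finset.Ico a (a + (M : ℤ))).filter fun t =>
              ((∏ l ∈ L, l : ℕ) : ℤ) ∣ t - s : Finset ℤ) : Set ℤ) := by
          rintro t ⟨ht, ht2⟩
          obtain ⟨s, hs, hd⟩ := hSt t ht2
          rw [Finset.mem_coe, Finset.mem_biUnion]
          refine ⟨s, hs, ?_⟩
          rw [Finset.mem_filter, Finset.mem_Ico]
          exact ⟨ht, hd⟩
        have h3 := Set.ncard_le_ncard h2 (Finset.finite_toSet _)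
        rw [Set.ncard_coe_finset] at h3
        have h4 : ((S.biUnion fun s => (Finset.Ico a (a + (M : ℤ))).filter fun t =>
              ((∏ l ∈ L, l : ℕ) : ℤ) ∣ t - s).card : ℝ) ≤
            S.card * ((M : ℝ) / ((∏ l ∈ L, l : ℕ) : ℝ) + 1) := by
          have h5 : ((S.biUnion fun s => (Finset.Ico a (a + (M : ℤ))).filter fun t =>
              ((∏ l ∈ L, l : ℕ) : ℤ) ∣ t - s).card : ℝ) ≤ ∑ s ∈ S, (((Finset.Ico a
                (a + (M : ℤ))).filter fun t => ((∏ l ∈ L, l : ℕ) : ℤ) ∣ t - s).card : ℝ) := by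
            exact_mod_cast Finset.card_biUnion_le
          refine h5.trans ?_
          rw [← nsmul_eq_mul, ← Finset.sum_const]
          exact Finset.sum_le_sum fun s _ => (count_div a M _ hN s).2
        have h6 : (S.card : ℝ) ≤ ((g : ℝ) + 1) ^ L.card := by exact_mod_cast hS
        calc (({t ∈ Set.Ico a (a + (M : ℤ)) | ∀ l ∈ L, ¬ FineAt q (X * u + C t) l}.ncard : ℕ) : ℝ)
            ≤ ((S.biUnion fun s => (Finset.Ico a (a + (M : ℤ))).filter fun t =>
              ((∏ l ∈ L, l : ℕ) : ℤ) ∣ t - s).card : ℝ) := by exact_mod_cast h3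
          _ ≤ S.card * ((M : ℝ) / ((∏ l ∈ L, l : ℕ) : ℝ) + 1) := h4
          _ ≤ _ := mul_le_mul_of_nonneg_right h6 (by positivity)
    _ = ((g : ℝ) + 1) ^ L.card *
        ((∑ u ∈ P1, ((Jset q g u).ncard : ℝ)) / ((∏ l ∈ L, l : ℕ) : ℝ) + P1.card) := by
        rw [← Finset.mul_sum, Finset.sum_add_distrib, ← Finset.sum_div, Finset.sum_const,
          nsmul_eq_mul, mul_one]

end Pool.Agent.Helper19.AAE
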