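import Pool.Agent.Helper19.AAR.Good
import Pool.Agent.Helper86.XE.Defs

/-!
# AAE: the criterion with odd exponents (after Helper19/AAR/Good)
-/

open Polynomial

namespace Pool.Agent.Helper19.AAE

open Pool.Agent.Helper84.AA (IsTrace traceSet frob)
open Pool.Agent.Helper86.XE (NiceO)
open Pool.Agent.Helper19.AAT (FineAt)
open Pool.Agent.Helper19.AAR
open Pool.Agent.Helper19.Sign (qw weil weil_monic irreducible_qw)
open Helper19.Disc (roots mem_roots')

theorem goodR_odd {q k : ℕ} (hq : 1 ≤ q) (h : Fin k → ℤ[X]) (hm : ∀ i, (h i).Monic)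
    (hd : ∀ i, 2 ≤ (h i).natDegree) (hirr : ∀ i, Irreducible (h i))
    (hl : ∀ i, ∃ l, NiceO q (h i) l ∧ ∀ j, j ≠ i → FineAt q (h j) l) : GoodR q h := by
  classical
  have hirrQ : ∀ i, Irreducible ((h i).map (Int.castRingHom ℚ)) := fun i =>
    ((hm i).irreducible_iff_irreducible_map_fraction_map (K := ℚ)).1 (hirr i)
  have hq0 : (q : ℤ) ≠ 0 := by omega
  have h1 : ∀ i, Irreducible (qw (q : ℤ) (h i)) := by
    intro i
    obtain ⟨l, ⟨hlp, _, hval⟩, _⟩ := hl i
    exact irreducible_qw hq0 (hm i) (hirrQ i) hlp hval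
  have hfm : ∀ i, (frob q (h i)).Monic := fun i => (weil_monic (q : ℤ) (h i) (hm i)).1
  refine ⟨fun i => ((hfm i).irreducible_iff_irreducible_map_fraction_map (K := ℚ)).2 (h1 i), ?_⟩
  intro f hf n N hN hrel i hFi
  -- the splitting field
  set P : ℚ[X] := (∏ i, qw (q : ℤ) (h i)) * f.map (Int.castRingHom ℚ) with hP
  have hf0 : f.map (Int.castRingHom ℚ) ≠ 0 :=
    (Polynomial.map_ne_zero_iff (Int.castRingHom ℚ).injective_int).2 hf
  have hPr : ∏ i, qw (q : ℤ) (h i) ≠ 0 := Finset.prod_ne_zero_iff.2 fun i _ => (h1 i).ne_zero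
  have hP0 : P ≠ 0 := mul_ne_zero hPr hf0
  have hsC : (P.map (algebraMap ℚ ℂ)).Splits := IsAlgClosed.splits _
  let L : IntermediateField ℚ ℂ := IntermediateField.adjoin ℚ (P.rootSet ℂ)
  have hL : P.IsSplittingField ℚ L := IntermediateField.adjoin_rootSet_isSplittingField hsC
  have : FiniteDimensional ℚ L := IsSplittingField.finiteDimensional L P
  have : NumberField L := { }
  have hnorm : Normal ℚ L := Normal.of_isSplittingField P
  have : IsGalois ℚ L := { }
  have hsP : (P.map (algebraMap ℚ L)).Splits := IsSplittingField.splits L P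
  have hsL : ∀ i, ((qw (q : ℤ) (h i)).map (algebraMap ℚ L)).Splits := by
    intro i
    refine Splits.of_dvd hsP ?_ (Polynomial.map_dvd _
      ((Finset.dvd_prod_of_mem _ (Finset.mem_univ i)).mul_right _))
    exact (Polynomial.map_ne_zero_iff (algebraMap ℚ L).injective).2 hP0
  have hmapC : ∀ i, (frob q (h i)).map (Int.castRingHom ℂ) =
      ((qw (q : ℤ) (h i)).map (algebraMap ℚ L)).map (algebraMap L ℂ) := by
    intro i
    rw [Polynomial.map_map, qw, Polynomial.map_map]
    congr 1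
  have hroots : ∀ i, ((frob q (h i)).map (Int.castRingHom ℂ)).roots.toFinset =
      (roots (qw (q : ℤ) (h i)) L).image (algebraMap L ℂ) := by
    intro i
    rw [hmapC, (hsL i).roots_map]
    ext z
    rw [Multiset.mem_toFinset, Multiset.mem_map, Finset.mem_image]
    constructor
    · rintro ⟨b, hb, rfl⟩
      refine ⟨b, ?_, rfl⟩
      rw [mem_roots' (h1 i).ne_zero]
      rw [mem_roots (Polynomial.map_ne_zero (h1 i).ne_zero), IsRoot.def, eval_map_algebraMap] at hb
      exact hb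
    · rintro ⟨b, hb, rfl⟩
      refine ⟨b, ?_, rfl⟩
      rw [mem_roots' (h1 i).ne_zero] at hb
      rw [mem_roots (Polynomial.map_ne_zero (h1 i).ne_zero), IsRoot.def, eval_map_algebraMap]
      exact hb
  have hinj : Function.Injective (algebraMap L ℂ) := (algebraMap L ℂ).injective
  have hprod : ∀ i, ∏ z ∈ (roots (qw (q : ℤ) (h i)) L).image (algebraMap L ℂ), z ^ n i z =
      algebraMap L ℂ (∏ b ∈ roots (qw (q : ℤ) (h i)) L, b ^ n i (algebraMap L ℂ b)) := by
    intro i
    rw [Finset.prod_image fun a _ b _ hab => hinj hab, map_prod]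
    exact Finset.prod_congr rfl fun b _ => (map_zpow₀ (algebraMap L ℂ) b _).symm
  simp only [hroots, hprod] at hrel
  rw [← map_prod, ← map_pow] at hrel
  -- the field of `f` inside `L`
  have hψ : ∀ z : ℂ, aeval z f = 0 → ∃ y : L, algebraMap L ℂ y = z := by
    intro z hz
    have hzL : z ∈ L := by
      apply IntermediateField.subset_adjoin
      rw [mem_rootSet]
      refine ⟨hP0, ?_⟩
      rw [hP, map_mul]
      refine mul_eq_zero_of_right _ ?_
      rw [aeval_def, eval₂_map]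
      rw [aeval_def] at hz
      have h3 : (algebraMap ℚ ℂ).comp (Int.castRingHom ℚ) = algebraMap ℤ ℂ :=
        Subsingleton.elim _ _
      rw [h3]; exact hz
    exact ⟨⟨z, hzL⟩, rfl⟩
  obtain ⟨hfin, hmemA⟩ := field_aux L (algebraMap L ℂ) f hψ
  obtain ⟨H, hnor, hidx, hfixA⟩ := fixing_aux L f
  rw [hfin] at hidx
  have hrelL : ∀ σ ∈ H, σ ((∏ i, ∏ b ∈ roots (qw (q : ℤ) (h i)) L, b ^ n i (algebraMap L ℂ b)) ^ N) =
      (∏ i, ∏ b ∈ roots (qw (q : ℤ) (h i)) L, b ^ n i (algebraMap L ℂ b)) ^ N := fun σ hσ =>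
    hfixA σ hσ _ (hmemA _ hrel)
  have h4 := theoremR (Fin k) (fun _ => (q : ℤ)) (fun _ => hq0) h hm hirrQ hd
    (by
      intro i
      obtain ⟨l, ⟨hlp, hsep, hval⟩, hf⟩ := hl i
      refine ⟨l, hlp, ?_, hval, fun j hj => (hf j hj).2⟩
      intro j
      by_cases hj : j = i
      · rw [hj]; exact hsep
      · exact (hf j hj).1)
    L hsL H hnor (fun i b => n i (algebraMap L ℂ b)) N hN hrelL i (by rw [hidx]; exact hFi)
  intro z hz
  rw [hroots] at hz
  obtain ⟨b, hb, rfl⟩ := Finset.mem_image.1 hz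
  have h5 := h4 b hb
  rw [h5, map_div₀, map_intCast]
  norm_cast

end Pool.Agent.Helper19.AAE
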