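import Pool.Agent.Helper19.AAE.FineSet

/-!
# AAE: pairs of polynomials
-/

set_option autoImplicit false

open Polynomial

namespace Pool.Agent.Helper19.AAE

open Pool.Agent.Helper84.AA
open Pool.Agent.Helper19.AAT

theorem fine_count_many {q g : ℕ} (hg : 1 ≤ g) (L : Finset ℕ) (hL : ∀ l ∈ L, l.Prime ∧ g < l) :
    (({h ∈ traceSet q g | ∀ l ∈ L, ¬ FineAt q h l}.ncard : ℕ) : ℝ) ≤
      ((g : ℝ) + 1) ^ L.card * ((traceSet q g).ncard / (∏ l ∈ L, (l : ℝ)) +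
        (preSet q g (g - 1)).ncard) := by
  have h := fine_count_set (q := q) hg L hL
  rw [Nat.cast_prod] at h
  exact h

theorem pair_bad {q g : ℕ} (hg : 1 ≤ g) (W : ℕ) (hW : (g + 1) ^ 2 ≤ W) (L : Finset ℕ)
    (hL : ∀ l ∈ L, l.Prime ∧ W < l) (Y : ℝ) (hY : 1 ≤ Y) :
    (({h ∈ traceSet q g | ∃ L' ⊆ L, (∀ l ∈ L', ¬ FineAt q h l) ∧ Y ≤ ∏ l ∈ L', (l : ℝ)}.ncard : ℕ) : ℝ) ≤
      2 ^ L.card * ((traceSet q g).ncard / Real.sqrt Y +
        ((g : ℝ) + 1) ^ L.card * (preSet q g (g - 1)).ncard) := by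
  classical
  set E : Finset (Finset ℕ) := L.powerset.filter fun L' => Y ≤ ∏ l ∈ L', (l : ℝ) with hE
  have hgW : g < W := lt_of_lt_of_le (by nlinarith) hW
  have hsub : {h ∈ traceSet q g | ∃ L' ⊆ L, (∀ l ∈ L', ¬ FineAt q h l) ∧ Y ≤ ∏ l ∈ L', (l : ℝ)} ⊆
      ⋃ L' ∈ E, {h ∈ traceSet q g | ∀ l ∈ L', ¬ FineAt q h l} := by
    rintro h ⟨hh, L', hL', hf, hp⟩
    rw [Set.mem_iUnion₂]
    exact ⟨L', Finset.mem_filter.2 ⟨Finset.mem_powerset.2 hL', hp⟩, hh, hf⟩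
  have hfin : ∀ L' : Finset ℕ, {h ∈ traceSet q g | ∀ l ∈ L', ¬ FineAt q h l}.Finite := fun L' =>
    (traceSet_finite q g).subset fun h hh => hh.1
  have h1 : {h ∈ traceSet q g | ∃ L' ⊆ L, (∀ l ∈ L', ¬ FineAt q h l) ∧
      Y ≤ ∏ l ∈ L', (l : ℝ)}.ncard ≤
      ∑ L' ∈ E, {h ∈ traceSet q g | ∀ l ∈ L', ¬ FineAt q h l}.ncard := by
    refine (Set.ncard_le_ncard hsub ?_).trans (Finset.set_ncard_biUnion_le E _)
    exact Set.Finite.biUnion (Finset.finite_toSet E) fun L' _ => hfin L'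
  have hN : (0 : ℝ) ≤ (traceSet q g).ncard := Nat.cast_nonneg _
  have hP : (0 : ℝ) ≤ (preSet q g (g - 1)).ncard := Nat.cast_nonneg _
  have hg1 : (1 : ℝ) ≤ (g : ℝ) + 1 := by
    have : (0 : ℝ) ≤ g := Nat.cast_nonneg _
    linarith
  have h2 : ∀ L' ∈ E, ((({h ∈ traceSet q g | ∀ l ∈ L', ¬ FineAt q h l}.ncard : ℕ)) : ℝ) ≤
      (traceSet q g).ncard / Real.sqrt Y + ((g : ℝ) + 1) ^ L.card * (preSet q g (g - 1)).ncard := by
    intro L' hL'
    rw [hE, Finset.mem_filter, Finset.mem_powerset] at hL'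
    obtain ⟨hsubL, hYp⟩ := hL'
    refine (fine_count_many (q := q) hg L' fun l hl =>
      ⟨(hL l (hsubL hl)).1, hgW.trans (hL l (hsubL hl)).2⟩).trans ?_
    rw [mul_add]
    refine add_le_add ?_ ?_
    · -- the product of the `l` is at least `(g + 1) ^ (2 |L'|)`
      have hsq : (((g : ℝ) + 1) ^ L'.card) ^ 2 ≤ ∏ l ∈ L', (l : ℝ) := by
        rw [← pow_mul, mul_comm, pow_mul, ← Finset.prod_const]
        refine Finset.prod_le_prod (fun l _ => by positivity) fun l hl => ?_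
        have h3 : (g + 1) ^ 2 ≤ l := hW.trans (hL l (hsubL hl)).2.le
        exact_mod_cast h3
      set Q : ℝ := ∏ l ∈ L', (l : ℝ) with hQ
      have hQY : Y ≤ Q := hYp
      have hQ0 : 0 < Q := by linarith
      have h4 : ((g : ℝ) + 1) ^ L'.card ≤ Real.sqrt Q := Real.le_sqrt_of_sq_le hsq
      have h5 : ((g : ℝ) + 1) ^ L'.card / Q ≤ 1 / Real.sqrt Y := by
        calc ((g : ℝ) + 1) ^ L'.card / Q ≤ Real.sqrt Q / Q :=
              div_le_div_of_nonneg_right h4 hQ0.le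
          _ = 1 / Real.sqrt Q := by
              rw [div_eq_div_iff hQ0.ne' (Real.sqrt_pos.2 hQ0).ne', one_mul, Real.mul_self_sqrt hQ0.le]
          _ ≤ 1 / Real.sqrt Y :=
              one_div_le_one_div_of_le (Real.sqrt_pos.2 (by linarith)) (Real.sqrt_le_sqrt hQY)
      calc ((g : ℝ) + 1) ^ L'.card * ((traceSet q g).ncard / Q)
          = (((g : ℝ) + 1) ^ L'.card / Q) * (traceSet q g).ncard := by ring
        _ ≤ 1 / Real.sqrt Y * (traceSet q g).ncard := mul_le_mul_of_nonneg_right h5 hN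
        _ = (traceSet q g).ncard / Real.sqrt Y := by ring
    · exact mul_le_mul_of_nonneg_right (pow_le_pow_right₀ hg1 (Finset.card_le_card hsubL)) hP
  have h3 : (E.card : ℝ) ≤ 2 ^ L.card := by
    have h4 : E.card ≤ 2 ^ L.card := (Finset.card_filter_le _ _).trans (Finset.card_powerset L).le
    exact_mod_cast h4
  calc (({h ∈ traceSet q g | ∃ L' ⊆ L, (∀ l ∈ L', ¬ FineAt q h l) ∧
        Y ≤ ∏ l ∈ L', (l : ℝ)}.ncard : ℕ) : ℝ)
      ≤ ∑ L' ∈ E, ((({h ∈ traceSet q g | ∀ l ∈ L', ¬ FineAt q h l}.ncard : ℕ)) : ℝ) := by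
        exact_mod_cast h1
    _ ≤ ∑ _L' ∈ E, ((traceSet q g).ncard / Real.sqrt Y +
          ((g : ℝ) + 1) ^ L.card * (preSet q g (g - 1)).ncard) := Finset.sum_le_sum h2
    _ = E.card * ((traceSet q g).ncard / Real.sqrt Y +
          ((g : ℝ) + 1) ^ L.card * (preSet q g (g - 1)).ncard) := by
        rw [Finset.sum_const, nsmul_eq_mul]
    _ ≤ _ := mul_le_mul_of_nonneg_right h3 (by positivity)

end Pool.Agent.Helper19.AAE
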