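import Pool.Agent.Helper19.AAE.Uniform

/-!
# AAE: pairs of polynomials, uniform in the number of the primes
-/

set_option autoImplicit false

open Polynomial

namespace Pool.Agent.Helper19.AAE

open Pool.Agent.Helper84.AA
open Pool.Agent.Helper19.AAT

theorem pairB (q : ℕ) : PairB q := by
  classical
  intro g hg W hW L hL Y hY
  set E : Finset (Finset ℕ) := L.powerset.filter fun L' : Finset ℕ => Y ≤ ∏ l ∈ L', (l : ℝ) with hE
  have hgW : g < W := lt_of_lt_of_le (by nlinarith) hW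
  have hW0 : (0 : ℝ) < W := by exact_mod_cast (by omega : 0 < W)
  have hY0 : 0 < Y := by linarith
  have hsub : {h ∈ traceSet q g | ∃ L' ⊆ L, (∀ l ∈ L', ¬ FineAt q h l) ∧ Y ≤ ∏ l ∈ L', (l : ℝ)} ⊆
      ⋃ L' ∈ E, {h ∈ traceSet q g | ∀ l ∈ L', ¬ FineAt q h l} := by
    rintro h ⟨hh, L', hL', hf, hp⟩
    rw [Set.mem_iUnion₂]
    exact ⟨L', Finset.mem_filter.2 ⟨Finset.mem_powerset.2 hL', hp⟩, hh, hf⟩
  have hfin : ∀ L' : Finset ℕ, {h ∈ traceSet q g | ∀ l ∈ L', ¬ FineAt q h l}.Finite := fun L' =>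
    (traceSet_finite q g).subset fun h hh => hh.1
  have h1 : {h ∈ traceSet q g | ∃ L' ⊆ L, (∀ l ∈ L', ¬ FineAt q h l) ∧
      Y ≤ ∏ l ∈ L', (l : ℝ)}.ncard ≤
      ∑ L' ∈ E, {h ∈ traceSet q g | ∀ l ∈ L', ¬ FineAt q h l}.ncard := by
    refine (Set.ncard_le_ncard hsub ?_).trans (Finset.set_ncard_biUnion_le E _)
    exact Set.Finite.biUnion (Finset.finite_toSet E) fun L' _ => hfin L'
  set N : ℝ := ((traceSet q g).ncard : ℝ) with hNd
  set P : ℝ := ((preSet q g (g - 1)).ncard : ℝ) with hPd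
  have hN : (0 : ℝ) ≤ N := Nat.cast_nonneg _
  have hP : (0 : ℝ) ≤ P := Nat.cast_nonneg _
  have hg1 : (1 : ℝ) ≤ (g : ℝ) + 1 := by
    have : (0 : ℝ) ≤ g := Nat.cast_nonneg _
    linarith
  have hl0 : ∀ l ∈ L, (0 : ℝ) < l := fun l hl => by exact_mod_cast (hL l hl).1.pos
  have h2 : ∀ L' ∈ E, ((({h ∈ traceSet q g | ∀ l ∈ L', ¬ FineAt q h l}.ncard : ℕ)) : ℝ) ≤
      Y ^ (-(1 / 4) : ℝ) * (∏ l ∈ L', (l : ℝ) ^ (-(1 / 4) : ℝ)) * N + ((g : ℝ) + 1) ^ L.card * P := by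
    intro L' hL'
    rw [hE, Finset.mem_filter, Finset.mem_powerset] at hL'
    obtain ⟨hsubL, hYp⟩ := hL'
    refine (fine_count_many (q := q) hg L' fun l hl =>
      ⟨(hL l (hsubL hl)).1, hgW.trans (hL l (hsubL hl)).2⟩).trans ?_
    rw [mul_add]
    refine add_le_add ?_ ?_
    · have e1 : ((g : ℝ) + 1) ^ L'.card ≤ ∏ l ∈ L', (l : ℝ) ^ (1 / 2 : ℝ) := by
        rw [← Finset.prod_const]
        refine Finset.prod_le_prod (fun l _ => by positivity) fun l hl => ?_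
        have h3 : (g + 1) ^ 2 ≤ l := hW.trans (hL l (hsubL hl)).2.le
        have h4 : ((g : ℝ) + 1) ^ 2 ≤ l := by exact_mod_cast h3
        rw [← Real.sqrt_eq_rpow]
        exact Real.le_sqrt_of_sq_le h4
      have hQ0 : 0 < ∏ l ∈ L', (l : ℝ) := Finset.prod_pos fun l hl => hl0 l (hsubL hl)
      have e2 : (∏ l ∈ L', (l : ℝ) ^ (1 / 2 : ℝ)) / (∏ l ∈ L', (l : ℝ)) =
          (∏ l ∈ L', (l : ℝ)) ^ (-(1 / 4) : ℝ) * ∏ l ∈ L', (l : ℝ) ^ (-(1 / 4) : ℝ) := by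
        rw [← Real.finsetProd_rpow _ _ (fun l hl => (hl0 l (hsubL hl)).le), ← Finset.prod_div_distrib,
          ← Finset.prod_mul_distrib]
        refine Finset.prod_congr rfl fun l hl => ?_
        have h5 := hl0 l (hsubL hl)
        have h6 : (l : ℝ) ^ (1 / 2 : ℝ) / (l : ℝ) = (l : ℝ) ^ (1 / 2 : ℝ) / (l : ℝ) ^ (1 : ℝ) := by
          rw [Real.rpow_one]
        rw [h6, ← Real.rpow_sub h5, ← Real.rpow_add h5]
        norm_num
      have e3 : (∏ l ∈ L', (l : ℝ)) ^ (-(1 / 4) : ℝ) ≤ Y ^ (-(1 / 4) : ℝ) :=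
        Real.rpow_le_rpow_of_nonpos hY0 hYp (by norm_num)
      have e4 : (0 : ℝ) ≤ ∏ l ∈ L', (l : ℝ) ^ (-(1 / 4) : ℝ) := Finset.prod_nonneg fun l hl => by
        have := hl0 l (hsubL hl)
        positivity
      calc ((g : ℝ) + 1) ^ L'.card * (N / ∏ l ∈ L', (l : ℝ))
          = ((g : ℝ) + 1) ^ L'.card / (∏ l ∈ L', (l : ℝ)) * N := by ring
        _ ≤ (∏ l ∈ L', (l : ℝ) ^ (1 / 2 : ℝ)) / (∏ l ∈ L', (l : ℝ)) * N :=
            mul_le_mul_of_nonneg_right (div_le_div_of_nonneg_right e1 hQ0.le) hN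
        _ = ((∏ l ∈ L', (l : ℝ)) ^ (-(1 / 4) : ℝ) * ∏ l ∈ L', (l : ℝ) ^ (-(1 / 4) : ℝ)) * N := by
            rw [e2]
        _ ≤ _ := mul_le_mul_of_nonneg_right (mul_le_mul_of_nonneg_right e3 e4) hN
    · exact mul_le_mul_of_nonneg_right (pow_le_pow_right₀ hg1 (Finset.card_le_card hsubL)) hP
  have h3 : (E.card : ℝ) ≤ 2 ^ L.card := by
    have h4 : E.card ≤ 2 ^ L.card := (Finset.card_filter_le _ _).trans (Finset.card_powerset L).le
    exact_mod_cast h4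
  have h4 : ∑ L' ∈ E, ∏ l ∈ L', (l : ℝ) ^ (-(1 / 4) : ℝ) ≤
      Real.exp (L.card / (W : ℝ) ^ (1 / 4 : ℝ)) := by
    calc ∑ L' ∈ E, ∏ l ∈ L', (l : ℝ) ^ (-(1 / 4) : ℝ)
        ≤ ∑ L' ∈ L.powerset, ∏ l ∈ L', (l : ℝ) ^ (-(1 / 4) : ℝ) := by
          refine Finset.sum_le_sum_of_subset_of_nonneg (Finset.filter_subset _ _) fun L' hL' _ => ?_
          refine Finset.prod_nonneg fun l hl => ?_
          have := hl0 l (Finset.mem_powerset.1 hL' hl)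
          positivity
      _ = ∏ l ∈ L, (1 + (l : ℝ) ^ (-(1 / 4) : ℝ)) := by
          rw [Finset.prod_one_add]
      _ ≤ ∏ l ∈ L, Real.exp ((W : ℝ) ^ (-(1 / 4) : ℝ)) := by
          refine Finset.prod_le_prod (fun l hl => ?_) fun l hl => ?_
          · have := hl0 l hl
            positivity
          · have h5 : (l : ℝ) ^ (-(1 / 4) : ℝ) ≤ (W : ℝ) ^ (-(1 / 4) : ℝ) :=
              Real.rpow_le_rpow_of_nonpos hW0 (by exact_mod_cast (hL l hl).2.le) (by norm_num)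
            have h6 := Real.add_one_le_exp ((W : ℝ) ^ (-(1 / 4) : ℝ))
            linarith
      _ = Real.exp (L.card / (W : ℝ) ^ (1 / 4 : ℝ)) := by
          rw [Finset.prod_const, ← Real.exp_nat_mul, Real.rpow_neg hW0.le]
          exact congrArg Real.exp (div_eq_mul_inv _ _).symm
  have hY4 : (0 : ℝ) ≤ Y ^ (-(1 / 4) : ℝ) := by positivity
  calc (({h ∈ traceSet q g | ∃ L' ⊆ L, (∀ l ∈ L', ¬ FineAt q h l) ∧
        Y ≤ ∏ l ∈ L', (l : ℝ)}.ncard : ℕ) : ℝ)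
      ≤ ∑ L' ∈ E, ((({h ∈ traceSet q g | ∀ l ∈ L', ¬ FineAt q h l}.ncard : ℕ)) : ℝ) := by
        exact_mod_cast h1
    _ ≤ ∑ L' ∈ E, (Y ^ (-(1 / 4) : ℝ) * (∏ l ∈ L', (l : ℝ) ^ (-(1 / 4) : ℝ)) * N +
          ((g : ℝ) + 1) ^ L.card * P) := Finset.sum_le_sum h2
    _ = Y ^ (-(1 / 4) : ℝ) * (∑ L' ∈ E, ∏ l ∈ L', (l : ℝ) ^ (-(1 / 4) : ℝ)) * N +
          E.card * (((g : ℝ) + 1) ^ L.card * P) := by
        rw [Finset.sum_add_distrib, Finset.sum_const, nsmul_eq_mul, ← Finset.sum_mul, ← Finset.mul_sum]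
    _ ≤ Y ^ (-(1 / 4) : ℝ) * Real.exp (L.card / (W : ℝ) ^ (1 / 4 : ℝ)) * N +
          2 ^ L.card * (((g : ℝ) + 1) ^ L.card * P) :=
        add_le_add (mul_le_mul_of_nonneg_right (mul_le_mul_of_nonneg_left h4 hY4) hN)
          (mul_le_mul_of_nonneg_right h3 (by positivity))
    _ = _ := by
        rw [mul_pow]
        ring

end Pool.Agent.Helper19.AAE
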