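import Pool.Agent.Helper19.AAE.PairB
import Pool.Agent.Helper86.XE.OneBig

/-!
# AAE: the final theorem
-/

set_option autoImplicit false

open Polynomial

namespace Pool.Agent.Helper19.AAE

open Pool.Agent.Helper84.AA
open Pool.Agent.Helper19.AAR (GoodR)

theorem almost_exponential {q : ℕ} (hq : 16 ≤ q) :
    ∃ d : ℝ, 0 < d ∧ ∃ c : ℝ, 0 < c ∧ ∃ G : ℕ, ∀ p k : ℕ, p.Prime → ∀ m ≥ G,
      ∀ B : ℝ, 1 ≤ B → B ≤ (m : ℝ) ^ (4 / 5 : ℝ) →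
      ∀ g : Fin k → ℕ, (∀ i, m ≤ g i ∧ (g i : ℝ) ≤ (m : ℝ) ^ B) →
      (({h : Fin k → ℤ[X] | (∀ i, h i ∈ traceSet q (g i)) ∧ ¬ GoodR q h}.ncard : ℕ) : ℝ) ≤
        c * 4 ^ k * Real.exp (-(d * m / (k + B))) *
        (({h : Fin k → ℤ[X] | ∀ i, h i ∈ traceSet q (g i) ∧
          ¬ (p : ℤ) ∣ (h i).coeff 0}.ncard : ℕ) : ℝ) := by
  obtain ⟨d, hd, G, hG⟩ := Pool.Agent.Helper86.XE.one_bigC (q := q) (by omega)
  exact almost_uniform_of hq (pairB q) ⟨d, hd, G, fun g hg K hK1 hK2 W h1 h2 u hu hD hM =>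
    hG g hg K hK1 hK2 W h1 h2 u hu hD hM⟩

end Pool.Agent.Helper19.AAE
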