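import Pool.Agent.Helper19.AAE.Pair
import Pool.Agent.Helper19.AAE.Good
import Pool.Agent.Helper19.AAP.Core

/-!
# AAE: almost all tuples, with an exponential saving
-/

set_option autoImplicit false

open Polynomial

namespace Pool.Agent.Helper19.AAE

open Pool.Agent.Helper84.AA
open Pool.Agent.Helper86.XE (NiceO BigW)
open Pool.Agent.Helper19.AAT (FineAt tuple_ncard)
open Pool.Agent.Helper19.AAR (GoodR)

/-- The sieve in the last coefficient, with an exponential rate. -/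
def OneBig (q K : ℕ) (δ : ℝ) (G : ℕ) : Prop :=
  ∀ g ≥ G, ∀ W : ℕ, g < W → W ≤ g ^ K → ∀ u ∈ preSet q g (g - 1), Delta q (X * u) ≠ 0 →
    (101 / 100 : ℝ) ^ g ≤ (Jset q g u).ncard →
    (({t ∈ Jset q g u | ¬ BigW q W (Real.exp (δ * g)) (X * u + C t)}.ncard : ℕ) : ℝ) ≤
      Real.exp (-(δ * g)) * (Jset q g u).ncard

theorem OneBig.mono {q K : ℕ} {δ δ' : ℝ} {G : ℕ} (h : OneBig q K δ G) (hδ : δ' ≤ δ) :
    OneBig q K δ' G := by
  intro g hg W h1 h2 u hu hD hM
  have hg0 : (0 : ℝ) ≤ g := Nat.cast_nonneg _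
  have hle : δ' * g ≤ δ * g := mul_le_mul_of_nonneg_right hδ hg0
  have h3 : {t ∈ Jset q g u | ¬ BigW q W (Real.exp (δ' * g)) (X * u + C t)} ⊆
      {t ∈ Jset q g u | ¬ BigW q W (Real.exp (δ * g)) (X * u + C t)} := by
    rintro t ⟨ht, hn⟩
    refine ⟨ht, fun ⟨L, hL, hY⟩ => hn ⟨L, hL, le_trans (Real.exp_le_exp.2 hle) hY⟩⟩
  have h4 := Set.ncard_le_ncard h3 ((Jset_finite q g u).subset fun t ht => ht.1)
  calc (({t ∈ Jset q g u | ¬ BigW q W (Real.exp (δ' * g)) (X * u + C t)}.ncard : ℕ) : ℝ)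
      ≤ (({t ∈ Jset q g u | ¬ BigW q W (Real.exp (δ * g)) (X * u + C t)}.ncard : ℕ) : ℝ) := by
        exact_mod_cast h4
    _ ≤ Real.exp (-(δ * g)) * (Jset q g u).ncard := h g hg W h1 h2 u hu hD hM
    _ ≤ Real.exp (-(δ' * g)) * (Jset q g u).ncard :=
        mul_le_mul_of_nonneg_right (Real.exp_le_exp.2 (neg_le_neg hle)) (Nat.cast_nonneg _)

/-- A minimal set of primes with a large product. -/
theorem exists_trim (L : Finset ℕ) (W : ℕ) (hL : ∀ l ∈ L, W < l) {Y : ℝ} (hY1 : 1 ≤ Y)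
    (hY : Y ≤ ∏ l ∈ L, (l : ℝ)) :
    ∃ L' ⊆ L, Y ≤ ∏ l ∈ L', (l : ℝ) ∧ (W : ℝ) ^ (L'.card - 1) ≤ Y := by
  classical
  have hne : (L.powerset.filter fun L' : Finset ℕ => Y ≤ ∏ l ∈ L', (l : ℝ)).Nonempty :=
    ⟨L, Finset.mem_filter.2 ⟨Finset.mem_powerset.2 (Finset.Subset.refl L), hY⟩⟩
  obtain ⟨L', hL', hmin⟩ := Finset.exists_min_image _ (fun L' => L'.card) hne
  rw [Finset.mem_filter, Finset.mem_powerset] at hL'
  refine ⟨L', hL'.1, hL'.2, ?_⟩
  rcases L'.eq_empty_or_nonempty with h0 | ⟨l, hl⟩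
  · rw [h0]
    simpa using hY1
  · have h1 : ¬ Y ≤ ∏ x ∈ L'.erase l, (x : ℝ) := by
      intro h
      have h2 := hmin (L'.erase l) (Finset.mem_filter.2 ⟨Finset.mem_powerset.2
        ((Finset.erase_subset l L').trans hL'.1), h⟩)
      have h3 := Finset.card_erase_lt_of_mem hl
      omega
    rw [not_le] at h1
    refine le_trans ?_ h1.le
    rw [← Finset.card_erase_of_mem hl, ← Finset.prod_const]
    refine Finset.prod_le_prod (fun x _ => Nat.cast_nonneg _) fun x hx => ?_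
    have := hL x (hL'.1 (Finset.mem_of_mem_erase hx))
    exact_mod_cast this.le

/-- The bounds for one `g`. -/
theorem one_dimE {q K : ℕ} (hq : 16 ≤ q) {δ : ℝ} (hδ0 : 0 < δ) (hδ : δ ≤ 1 / 100) {G₀ : ℕ}
    (hO : OneBig q K δ G₀) :
    ∃ G : ℕ, 16 ≤ G ∧ ∀ p : ℕ, p.Prime → ∀ g ≥ G, ∀ W : ℕ, g < W → W ≤ g ^ K →
      (({h ∈ traceSet q g | ¬ (Irreducible h ∧ BigW q W (Real.exp (δ * g)) h)}.ncard : ℕ) : ℝ) ≤
        4 * Real.exp (-(δ * g)) * (traceSet q g).ncard ∧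
      ((traceSet q g).ncard : ℝ) ≤
        3 * (({h ∈ traceSet q g | ¬ (p : ℤ) ∣ h.coeff 0}.ncard : ℕ) : ℝ) ∧
      ((g : ℝ) + 1) * Real.exp (δ * g) * (preSet q g (g - 1)).ncard ≤
        Real.exp (-(δ * g)) * (traceSet q g).ncard := by
  obtain ⟨G1, hG1⟩ := ratio1 hq
  obtain ⟨G2, hG2⟩ := ratio2 hq
  obtain ⟨G3, hG3⟩ := ratio3 hq
  have hlim := tendsto_self_mul_const_pow_of_lt_one (show (0 : ℝ) ≤ 98 / 100 by norm_num)
    (show (98 / 100 : ℝ) < 1 by norm_num)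
  obtain ⟨G5, hG5⟩ := Filter.eventually_atTop.1 (hlim.eventually (gt_mem_nhds
    (show (0 : ℝ) < 1 by norm_num)))
  have hlim2 := tendsto_self_mul_const_pow_of_lt_one (show (0 : ℝ) ≤ 99 / 100 by norm_num)
    (show (99 / 100 : ℝ) < 1 by norm_num)
  obtain ⟨G6, hG6⟩ := Filter.eventually_atTop.1 (hlim2.eventually (gt_mem_nhds
    (show (0 : ℝ) < 1 / 2 by norm_num)))
  refine ⟨max (max (max G1 G2) (max G3 G₀)) (max (max G5 16) G6), by simp,
    fun p hp g hg W hgW hWg => ?_⟩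
  have g1 : G1 ≤ g := le_trans (by simp) hg
  have g2 : G2 ≤ g := le_trans (by simp) hg
  have g3 : G3 ≤ g := le_trans (by simp) hg
  have g4 : G₀ ≤ g := le_trans (by simp) hg
  have g5 : G5 ≤ g := le_trans (by simp) hg
  have g6 : G6 ≤ g := le_trans (by simp) hg
  have hg3 : 16 ≤ g := le_trans (by simp) hg
  have hgR : (16 : ℝ) ≤ g := by exact_mod_cast hg3
  have hg0 : (0 : ℝ) < g := by linarith
  have hθ0 : (0 : ℝ) < (98 / 100 : ℝ) ^ g := by positivity
  have hθ2 : (98 / 100 : ℝ) ^ g ≤ 1 / 12 := by nlinarith [hG5 g g5]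
  -- `exp (δ) ≤ 100 / 99`
  have hexp : Real.exp δ ≤ 100 / 99 := by
    have h1 : 1 - δ ≤ Real.exp (-δ) := by
      have := Real.add_one_le_exp (-δ)
      linarith
    have h2 : Real.exp δ * Real.exp (-δ) = 1 := by rw [← Real.exp_add]; simp
    have h3 : 0 < Real.exp δ := Real.exp_pos δ
    rw [le_div_iff₀ (by norm_num)]
    nlinarith
  have hexpg : Real.exp (δ * g) ≤ (100 / 99 : ℝ) ^ g := by
    rw [mul_comm, Real.exp_nat_mul]
    exact pow_le_pow_left₀ (Real.exp_pos δ).le hexp g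
  have hexpn : (99 / 100 : ℝ) ^ g ≤ Real.exp (-(δ * g)) := by
    rw [Real.exp_neg, le_inv_comm₀ (by positivity) (Real.exp_pos _)]
    refine hexpg.trans (le_of_eq ?_)
    rw [← inv_pow]
    norm_num
  have hθ1 : (98 / 100 : ℝ) ^ g ≤ Real.exp (-(δ * g)) :=
    (pow_le_pow_left₀ (by norm_num) (by norm_num) g).trans hexpn
  obtain ⟨h1, h2⟩ := Pool.Agent.Helper19.AAP.almost_core hq hp (by omega)
    (BigW q W (Real.exp (δ * g))) (η := Real.exp (-(δ * g)))
    (by positivity) (hG1 g g1) (hG2 g g2) (hG3 g g3) (hO g g4 W hgW hWg) hθ2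
  have hN0 : (0 : ℝ) ≤ (traceSet q g).ncard := Nat.cast_nonneg _
  refine ⟨?_, h2, ?_⟩
  · refine h1.trans (mul_le_mul_of_nonneg_right ?_ hN0)
    linarith
  · have h3 := hG1 g g1
    have h4 := hG6 g g6
    have h5 : (0 : ℝ) < (101 / 100 : ℝ) ^ g := by positivity
    have h6 : ((preSet q g (g - 1)).ncard : ℝ) ≤ (98 / 101 : ℝ) ^ g * (traceSet q g).ncard := by
      have h7 : (98 / 101 : ℝ) ^ g = (98 / 100 : ℝ) ^ g / (101 / 100 : ℝ) ^ g := by
        rw [← div_pow]; norm_num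
      rw [h7, div_mul_eq_mul_div, le_div_iff₀ h5, mul_comm]
      exact h3
    have h8 : ((g : ℝ) + 1) * Real.exp (δ * g) * (98 / 101 : ℝ) ^ g ≤ Real.exp (-(δ * g)) := by
      have h9 : ((g : ℝ) + 1) * (99 / 100 : ℝ) ^ g ≤ 1 := by
        have h10 : (0 : ℝ) < (99 / 100 : ℝ) ^ g := by positivity
        nlinarith
      have h11 : (98 / 101 : ℝ) ^ g ≤ (99 / 100 : ℝ) ^ g * ((99 / 100 : ℝ) ^ g * (99 / 100 : ℝ) ^ g) := by
        rw [← mul_pow, ← mul_pow]
        exact pow_le_pow_left₀ (by norm_num) (by norm_num) g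
      have h12 : (100 / 99 : ℝ) ^ g * (99 / 100 : ℝ) ^ g = 1 := by
        rw [← mul_pow]; norm_num
      have h13 : Real.exp (δ * g) * (99 / 100 : ℝ) ^ g ≤ 1 := by
        rw [← h12]
        exact mul_le_mul_of_nonneg_right hexpg (by positivity)
      calc ((g : ℝ) + 1) * Real.exp (δ * g) * (98 / 101 : ℝ) ^ g
          ≤ ((g : ℝ) + 1) * Real.exp (δ * g) *
            ((99 / 100 : ℝ) ^ g * ((99 / 100 : ℝ) ^ g * (99 / 100 : ℝ) ^ g)) :=
            mul_le_mul_of_nonneg_left h11 (by positivity)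
        _ = (((g : ℝ) + 1) * (99 / 100 : ℝ) ^ g) * (Real.exp (δ * g) * (99 / 100 : ℝ) ^ g) *
            (99 / 100 : ℝ) ^ g := by ring
        _ ≤ 1 * 1 * (99 / 100 : ℝ) ^ g := by
            refine mul_le_mul_of_nonneg_right ?_ (by positivity)
            exact mul_le_mul h9 h13 (by positivity) (by norm_num)
        _ ≤ Real.exp (-(δ * g)) := by
            rw [one_mul, one_mul]
            exact hexpn
    calc ((g : ℝ) + 1) * Real.exp (δ * g) * (preSet q g (g - 1)).ncard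
        ≤ ((g : ℝ) + 1) * Real.exp (δ * g) * ((98 / 101 : ℝ) ^ g * (traceSet q g).ncard) :=
          mul_le_mul_of_nonneg_left h6 (by positivity)
      _ = (((g : ℝ) + 1) * Real.exp (δ * g) * (98 / 101 : ℝ) ^ g) * (traceSet q g).ncard := by ring
      _ ≤ Real.exp (-(δ * g)) * (traceSet q g).ncard := mul_le_mul_of_nonneg_right h8 hN0

/-- If every prime of `L` is bad for some `j`, then some `j` has bad primes with a large product. -/
theorem exists_large {k : ℕ} (L : Finset ℕ) (hL : ∀ l ∈ L, 1 ≤ l) (P : Fin k → ℕ → Prop) (J : Fin k → Prop)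
    (hP : ∀ l ∈ L, ∃ j, J j ∧ P j l) {Y' : ℝ} (hY' : 1 ≤ Y')
    (hsmall : ∀ j, J j → ∀ L' ⊆ L, (∀ l ∈ L', P j l) → ∏ l ∈ L', (l : ℝ) < Y') :
    ∏ l ∈ L, (l : ℝ) ≤ Y' ^ k := by
  classical
  have h1 : ∏ l ∈ L, (l : ℝ) ≤ ∏ l ∈ L, ∏ j : Fin k, (if J j ∧ P j l then (l : ℝ) else 1) := by
    refine Finset.prod_le_prod (fun l _ => Nat.cast_nonneg _) fun l hl => ?_
    obtain ⟨j, hj⟩ := hP l hl
    have hl1 : (1 : ℝ) ≤ l := by exact_mod_cast hL l hl
    have h3 : ∏ i ∈ ({j} : Finset (Fin k)), (if J i ∧ P i l then (l : ℝ) else 1) ≤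
        ∏ i : Fin k, (if J i ∧ P i l then (l : ℝ) else 1) := by
      refine Finset.prod_le_prod_of_subset_of_one_le (Finset.subset_univ _) ?_ ?_
      · intro i _
        split_ifs
        · exact Nat.cast_nonneg _
        · exact zero_le_one
      · intro i _ _
        split_ifs
        · exact hl1
        · exact le_refl _
    rw [Finset.prod_singleton, if_pos hj] at h3
    exact h3
  rw [Finset.prod_comm] at h1
  refine h1.trans ?_
  have h4 : ∀ j : Fin k, ∏ l ∈ L, (if J j ∧ P j l then (l : ℝ) else 1) ≤ Y' := by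
    intro j
    by_cases hj : J j
    · rw [← Finset.prod_filter]
      refine (hsmall j hj _ (Finset.filter_subset _ _) fun l hl => ?_).le
      exact (Finset.mem_filter.1 hl).2.2
    · have h5 : ∏ l ∈ L, (if J j ∧ P j l then (l : ℝ) else 1) = 1 := by
        refine Finset.prod_eq_one fun l _ => ?_
        rw [if_neg]
        exact fun h => hj h.1
      rw [h5]
      exact hY'
  have h6 : ∀ j ∈ (Finset.univ : Finset (Fin k)),
      (0 : ℝ) ≤ ∏ l ∈ L, (if J j ∧ P j l then (l : ℝ) else 1) := by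
    intro j _
    refine Finset.prod_nonneg fun l _ => ?_
    split_ifs
    · exact Nat.cast_nonneg _
    · exact zero_le_one
  refine (Finset.prod_le_prod h6 fun j _ => h4 j).trans (le_of_eq ?_)
  rw [Finset.prod_const, Finset.card_univ, Fintype.card_fin]

/-- The counting of the tuples. -/
theorem almost_tuples_exp {q : ℕ} (hq : 16 ≤ q) (k A : ℕ) (hA : 1 ≤ A) {δ : ℝ} (hδ0 : 0 < δ)
    (hδ : δ ≤ 1 / 100) {G₀ : ℕ} (hO : OneBig q (2 * A + 1) δ G₀) :
    ∃ G : ℕ, ∀ p : ℕ, p.Prime → ∀ m : ℕ, G ≤ m → ∀ g : Fin k → ℕ, (∀ i, m ≤ g i ∧ g i ≤ m ^ A) →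
      (({h : Fin k → ℤ[X] | (∀ i, h i ∈ traceSet q (g i)) ∧ ¬ GoodR q h}.ncard : ℕ) : ℝ) ≤
        ((k : ℝ) + k * k) * 4 * 3 ^ k * Real.exp (-(δ / (4 * (k + 1)) * m)) *
        (({h : Fin k → ℤ[X] | ∀ i, h i ∈ traceSet q (g i) ∧
          ¬ (p : ℤ) ∣ (h i).coeff 0}.ncard : ℕ) : ℝ) := by
  classical
  obtain ⟨G, hG16, hG'⟩ := one_dimE hq hδ0 hδ hO
  refine ⟨max G (2 ^ (4 * (k + 1))), fun p hp m hmm g hgm => ?_⟩
  have hm : G ≤ m := (le_max_left _ _).trans hmm
  have hm2 : 2 ^ (4 * (k + 1)) ≤ m := (le_max_right _ _).trans hmm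
  have hm16 : 16 ≤ m := hG16.trans hm
  have hmR : (16 : ℝ) ≤ m := by exact_mod_cast hm16
  have hm0 : (0 : ℝ) < m := by linarith
  have hk0 : (0 : ℝ) < (k : ℝ) + 1 := by positivity
  -- the parameters
  set W : ℕ := m ^ (2 * A + 1) with hW
  set Y : ℝ := Real.exp (δ * m) with hYd
  set Y' : ℝ := Real.exp (δ * m / (k + 1)) with hY'd
  have hY1 : 1 < Y := by
    rw [hYd]
    exact Real.one_lt_exp_iff.2 (by positivity)
  have hY'1 : 1 ≤ Y' := by
    rw [hY'd]
    exact Real.one_le_exp (by positivity)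
  have hmW : m ≤ W := Nat.le_self_pow (by omega) m
  have hmA : m ^ A < W := Nat.pow_lt_pow_right (by omega) (by omega)
  have hg : ∀ i, G ≤ g i := fun i => le_trans hm (hgm i).1
  have hgW : ∀ i, g i < W := fun i => lt_of_le_of_lt (hgm i).2 hmA
  have hWg : ∀ i, W ≤ g i ^ (2 * A + 1) := fun i => Nat.pow_le_pow_left (hgm i).1 _
  have hgW2 : ∀ i, (g i + 1) ^ 2 ≤ W := by
    intro i
    have h1 : g i + 1 ≤ 2 * m ^ A := by
      have h2 := (hgm i).2
      have h3 : 1 ≤ m ^ A := Nat.one_le_pow _ _ (by omega)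
      omega
    calc (g i + 1) ^ 2 ≤ (2 * m ^ A) ^ 2 := Nat.pow_le_pow_left h1 2
      _ = 4 * (m ^ A * m ^ A) := by ring
      _ ≤ m * (m ^ A * m ^ A) := Nat.mul_le_mul_right _ (by omega)
      _ = W := by rw [hW]; ring
  set ε : ℝ := Real.exp (-(δ / (4 * (k + 1)) * m)) with hεd
  have hε0 : 0 < ε := Real.exp_pos _
  have hδε : Real.exp (-(δ * m)) ≤ ε := by
    rw [hεd]
    refine Real.exp_le_exp.2 (neg_le_neg (mul_le_mul_of_nonneg_right ?_ hm0.le))
    refine div_le_self hδ0.le ?_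
    nlinarith [Nat.cast_nonneg (α := ℝ) k]
  have hδg : ∀ i, Real.exp (-(δ * g i)) ≤ ε := by
    intro i
    refine le_trans (Real.exp_le_exp.2 (neg_le_neg ?_)) hδε
    have h1 : (m : ℝ) ≤ g i := by exact_mod_cast (hgm i).1
    exact mul_le_mul_of_nonneg_left h1 hδ0.le
  have hG2 : 2 ≤ G := by omega
  let T : Fin k → Finset ℤ[X] := fun i => (traceSet_finite q (g i)).toFinset
  have hT : ∀ i h, h ∈ T i ↔ h ∈ traceSet q (g i) := fun i h => Set.Finite.mem_toFinset _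
  have hTc : ∀ i, (traceSet q (g i)).ncard = (T i).card := fun i =>
    Set.ncard_eq_toFinset_card _ (traceSet_finite q (g i))
  let BW : Fin k → ℤ[X] → Prop := fun i h => BigW q W (Real.exp (δ * g i)) h
  let B : Fin k → ℤ[X] → Prop := fun i h => ¬ (Irreducible h ∧ BW i h)
  -- the trimmed sets of primes
  have hex : ∀ i h, BW i h → ∃ L : Finset ℕ, (∀ l ∈ L, W < l ∧ NiceO q h l) ∧
      Y ≤ ∏ l ∈ L, (l : ℝ) ∧ (W : ℝ) ^ (L.card - 1) ≤ Y := by
    rintro i h ⟨L, hL, hY⟩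
    have hYg : Y ≤ ∏ l ∈ L, (l : ℝ) := by
      refine le_trans ?_ hY
      rw [hYd]
      refine Real.exp_le_exp.2 (mul_le_mul_of_nonneg_left ?_ hδ0.le)
      exact_mod_cast (hgm i).1
    obtain ⟨L', hL', h1, h2⟩ := exists_trim L W (fun l hl => (hL l hl).1) hY1.le hYg
    exact ⟨L', fun l hl => hL l (hL' hl), h1, h2⟩
  let ℓ : Fin k → ℤ[X] → Finset ℕ := fun i h => if hh : BW i h then (hex i h hh).choose else ∅
  have hℓ : ∀ i h, BW i h → (∀ l ∈ ℓ i h, W < l ∧ NiceO q h l) ∧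
      Y ≤ ∏ l ∈ ℓ i h, (l : ℝ) ∧ (W : ℝ) ^ ((ℓ i h).card - 1) ≤ Y := by
    intro i h hh
    have : ℓ i h = (hex i h hh).choose := dif_pos hh
    rw [this]
    exact (hex i h hh).choose_spec
  let D : Fin k → Fin k → ℤ[X] → ℤ[X] → Prop := fun i _ x y =>
    ∃ L' ⊆ ℓ i x, (∀ l ∈ L', ¬ FineAt q y l) ∧ Y' ≤ ∏ l ∈ L', (l : ℝ)
  have hsep : ∀ (i : Fin k) (Pr : ℤ[X] → Prop),
      {h ∈ traceSet q (g i) | Pr h} = {h | h ∈ T i ∧ Pr h} := by
    intro i Pr
    ext h
    exact and_congr_left fun _ => (hT i h).symm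
  have hB : ∀ i, (({y | y ∈ T i ∧ B i y}.ncard : ℕ) : ℝ) ≤ (4 * ε) * (T i).card := by
    intro i
    have h1 := (hG' p hp (g i) (hg i) W (hgW i) (hWg i)).1
    rw [hsep, hTc] at h1
    refine h1.trans (mul_le_mul_of_nonneg_right ?_ (Nat.cast_nonneg _))
    exact mul_le_mul_of_nonneg_left (hδg i) (by norm_num)
  have hD : ∀ i j, i ≠ j → ∀ x ∈ T i, ¬ B i x →
      (({y | y ∈ T j ∧ D i j x y}.ncard : ℕ) : ℝ) ≤ (4 * ε) * (T j).card := by
    intro i j _ x _ hx
    have hbw : BW i x := (not_not.1 hx).2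
    obtain ⟨hL1, hL2, hL3⟩ := hℓ i x hbw
    set L := ℓ i x with hLd
    have hgj : 16 ≤ g j := hG16.trans (hg j)
    have h1 := pair_bad (q := q) (g := g j) (by omega) W (hgW2 j) L
      (fun l hl => ⟨(hL1 l hl).2.1, (hL1 l hl).1⟩) Y' hY'1
    rw [hsep, hTc] at h1
    refine h1.trans ?_
    have h2 := (hG' p hp (g j) (hg j) W (hgW j) (hWg j)).2.2
    rw [hTc] at h2
    have hc0 : (0 : ℝ) ≤ (T j).card := Nat.cast_nonneg _
    set a := L.card with ha
    -- `2 ^ a`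
    have hpa : ∀ x : ℝ, 1 ≤ x → x ^ a ≤ x * x ^ (a - 1) := by
      intro x hx
      rcases Nat.eq_zero_or_pos a with h0 | h0
      · rw [h0]; simpa using hx
      · rw [← pow_succ', Nat.sub_add_cancel h0]
    have h2a : (2 : ℝ) ^ (a - 1) ≤ Real.exp (δ * m / (4 * (k + 1))) := by
      have e1 : ((2 : ℝ) ^ (a - 1)) ^ (4 * (k + 1)) ≤ Real.exp (δ * m) := by
        refine le_trans ?_ hL3
        rw [← pow_mul, mul_comm, pow_mul]
        refine pow_le_pow_left₀ (by positivity) ?_ _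
        exact_mod_cast hm2.trans hmW
      have e2 : Real.exp (δ * m) = (Real.exp (δ * m / (4 * (k + 1)))) ^ (4 * (k + 1)) := by
        rw [← Real.exp_nat_mul]
        congr 1
        push_cast
        field_simp
      rw [e2] at e1
      exact le_of_pow_le_pow_left₀ (by omega) (Real.exp_pos _).le e1
    have hga : ((g j : ℝ) + 1) ^ (a - 1) ≤ Real.exp (δ * m / 2) := by
      have e1 : (((g j : ℝ) + 1) ^ (a - 1)) ^ 2 ≤ Real.exp (δ * m) := by
        refine le_trans ?_ hL3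
        rw [← pow_mul, mul_comm, pow_mul]
        refine pow_le_pow_left₀ (by positivity) ?_ _
        exact_mod_cast hgW2 j
      have e2 : Real.exp (δ * m) = (Real.exp (δ * m / 2)) ^ 2 := by
        rw [← Real.exp_nat_mul]
        congr 1
        push_cast
        ring
      rw [e2] at e1
      exact le_of_pow_le_pow_left₀ (by norm_num) (Real.exp_pos _).le e1
    have hsqrt : Real.sqrt Y' = Real.exp (δ * m / (2 * (k + 1))) := by
      rw [hY'd, ← Real.exp_half]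
      congr 1
      field_simp
    have hgj1 : (1 : ℝ) ≤ (g j : ℝ) + 1 := by
      have : (0 : ℝ) ≤ g j := Nat.cast_nonneg _
      linarith
    have t1 : (2 : ℝ) ^ a / Real.sqrt Y' ≤ 2 * ε := by
      rw [hsqrt, div_le_iff₀ (Real.exp_pos _)]
      calc (2 : ℝ) ^ a ≤ 2 * 2 ^ (a - 1) := hpa 2 (by norm_num)
        _ ≤ 2 * Real.exp (δ * m / (4 * (k + 1))) := mul_le_mul_of_nonneg_left h2a (by norm_num)
        _ = 2 * ε * Real.exp (δ * m / (2 * (k + 1))) := by
            rw [hεd, mul_assoc, ← Real.exp_add]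
            congr 2
            field_simp
            ring
    have t2 : (2 : ℝ) ^ a * ((g j : ℝ) + 1) ^ a ≤ 2 * (((g j : ℝ) + 1) * Real.exp (δ * g j)) := by
      calc (2 : ℝ) ^ a * ((g j : ℝ) + 1) ^ a
          ≤ (2 * 2 ^ (a - 1)) * (((g j : ℝ) + 1) * ((g j : ℝ) + 1) ^ (a - 1)) :=
            mul_le_mul (hpa 2 (by norm_num)) (hpa _ hgj1) (by positivity) (by positivity)
        _ ≤ (2 * Real.exp (δ * m / (4 * (k + 1)))) * (((g j : ℝ) + 1) * Real.exp (δ * m / 2)) := by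
            gcongr
        _ = 2 * (((g j : ℝ) + 1) * (Real.exp (δ * m / (4 * (k + 1))) * Real.exp (δ * m / 2))) := by
            ring
        _ ≤ 2 * (((g j : ℝ) + 1) * Real.exp (δ * g j)) := by
            refine mul_le_mul_of_nonneg_left (mul_le_mul_of_nonneg_left ?_ (by positivity))
              (by norm_num)
            rw [← Real.exp_add]
            refine Real.exp_le_exp.2 ?_
            have e1 : δ * m / (4 * (k + 1)) ≤ δ * m / 2 := by
              refine div_le_div_of_nonneg_left (by positivity) (by norm_num) ?_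
              nlinarith [Nat.cast_nonneg (α := ℝ) k]
            have e2 : δ * m ≤ δ * g j :=
              mul_le_mul_of_nonneg_left (by exact_mod_cast (hgm j).1) hδ0.le
            linarith
    have hδgj := hδg j
    have hp0 : (0 : ℝ) ≤ (preSet q (g j) (g j - 1)).ncard := Nat.cast_nonneg _
    calc (2 : ℝ) ^ a * ((T j).card / Real.sqrt Y' +
          ((g j : ℝ) + 1) ^ a * (preSet q (g j) (g j - 1)).ncard)
        = (2 : ℝ) ^ a / Real.sqrt Y' * (T j).card +
          ((2 : ℝ) ^ a * ((g j : ℝ) + 1) ^ a) * (preSet q (g j) (g j - 1)).ncard := by ring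
      _ ≤ 2 * ε * (T j).card + (2 * (((g j : ℝ) + 1) * Real.exp (δ * g j))) *
          (preSet q (g j) (g j - 1)).ncard :=
          add_le_add (mul_le_mul_of_nonneg_right t1 hc0) (mul_le_mul_of_nonneg_right t2 hp0)
      _ = 2 * ε * (T j).card + 2 * (((g j : ℝ) + 1) * Real.exp (δ * g j) *
          (preSet q (g j) (g j - 1)).ncard) := by ring
      _ ≤ 2 * ε * (T j).card + 2 * (ε * (T j).card) := by
          have e1 : ((g j : ℝ) + 1) * Real.exp (δ * g j) * (preSet q (g j) (g j - 1)).ncard ≤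
              ε * (T j).card := h2.trans (mul_le_mul_of_nonneg_right hδgj hc0)
          linarith
      _ = (4 * ε) * (T j).card := by ring
  have hmain := tuple_ncard T B D (ε := 4 * ε) (by positivity) hB hD
  -- the bad tuples
  have hbad : (({h : Fin k → ℤ[X] | (∀ i, h i ∈ traceSet q (g i)) ∧ ¬ GoodR q h}.ncard : ℕ) : ℝ) ≤
      (({x : Fin k → ℤ[X] | (∀ i, x i ∈ T i) ∧ ((∃ i, B i (x i)) ∨
        ∃ i j, i ≠ j ∧ ¬ B i (x i) ∧ D i j (x i) (x j))}.ncard : ℕ) : ℝ) := by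
    have h1 : {h : Fin k → ℤ[X] | (∀ i, h i ∈ traceSet q (g i)) ∧ ¬ GoodR q h} ⊆
        {x : Fin k → ℤ[X] | (∀ i, x i ∈ T i) ∧ ((∃ i, B i (x i)) ∨
          ∃ i j, i ≠ j ∧ ¬ B i (x i) ∧ D i j (x i) (x j))} := by
      rintro h ⟨hh, hbad⟩
      refine ⟨fun i => (hT i _).2 (hh i), ?_⟩
      by_contra hcon
      rw [not_or, not_exists] at hcon
      obtain ⟨hc1, hc2⟩ := hcon
      apply hbad
      have hc1' : ∀ i, Irreducible (h i) ∧ BW i (h i) := fun i => not_not.1 (hc1 i)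
      refine goodR_odd (by omega) h (fun i => (hh i).1) ?_ (fun i => (hc1' i).1) ?_
      · intro i
        rw [(hh i).2.1]
        exact hG2.trans (hg i)
      · intro i
        obtain ⟨hL1, hL2, _⟩ := hℓ i (h i) (hc1' i).2
        by_contra hcon
        push Not at hcon
        have h3 := exists_large (k := k) (ℓ i (h i)) (fun l hl => by
            have := (hL1 l hl).1
            omega)
          (fun j l => ¬ FineAt q (h j) l) (fun j => j ≠ i)
          (fun l hl => by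
            obtain ⟨j, hj, hf⟩ := hcon l (hL1 l hl).2
            exact ⟨j, hj, hf⟩) hY'1
          (fun j hj L' hL' hP => by
            by_contra hlt
            exact hc2 ⟨i, j, hj.symm, hc1 i, L', hL', hP, not_lt.1 hlt⟩)
        have h4 : Y' ^ k < Y := by
          rw [hY'd, ← Real.exp_nat_mul, hYd]
          refine Real.exp_lt_exp.2 ?_
          rw [mul_div_assoc', div_lt_iff₀ hk0]
          nlinarith [mul_pos hδ0 hm0]
        linarith
    have hfin : {x : Fin k → ℤ[X] | (∀ i, x i ∈ T i) ∧ ((∃ i, B i (x i)) ∨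
          ∃ i j, i ≠ j ∧ ¬ B i (x i) ∧ D i j (x i) (x j))}.Finite := by
      refine (Finset.finite_toSet (Fintype.piFinset T)).subset fun x hx => ?_
      rw [Finset.mem_coe, Fintype.mem_piFinset]
      exact hx.1
    exact_mod_cast Set.ncard_le_ncard h1 hfin
  -- the ordinary tuples
  let O : Fin k → ℝ := fun i => (({h ∈ traceSet q (g i) | ¬ (p : ℤ) ∣ h.coeff 0}.ncard : ℕ) : ℝ)
  have hord : ((({h : Fin k → ℤ[X] | ∀ i, h i ∈ traceSet q (g i) ∧
      ¬ (p : ℤ) ∣ (h i).coeff 0}.ncard : ℕ)) : ℝ) = ∏ i, O i := by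
    have hfO : ∀ i, {h ∈ traceSet q (g i) | ¬ (p : ℤ) ∣ h.coeff 0}.Finite := fun i =>
      (traceSet_finite q (g i)).subset fun h hh => hh.1
    have h1 : {h : Fin k → ℤ[X] | ∀ i, h i ∈ traceSet q (g i) ∧ ¬ (p : ℤ) ∣ (h i).coeff 0} =
        ↑(Fintype.piFinset fun i => (hfO i).toFinset) := by
      ext h
      rw [Finset.mem_coe, Fintype.mem_piFinset]
      exact forall_congr' fun i => (Set.Finite.mem_toFinset (hfO i)).symm
    rw [h1, Set.ncard_coe_finset, Fintype.card_piFinset]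
    push_cast
    refine Finset.prod_congr rfl fun i _ => ?_
    show _ = (({h ∈ traceSet q (g i) | ¬ (p : ℤ) ∣ h.coeff 0}.ncard : ℕ) : ℝ)
    rw [Set.ncard_eq_toFinset_card _ (hfO i)]
  have hprod : ∏ i, ((T i).card : ℝ) ≤ 3 ^ k * ∏ i, O i := by
    have h1 : ∀ i ∈ (Finset.univ : Finset (Fin k)), ((T i).card : ℝ) ≤ 3 * O i := by
      intro i _
      have h2 := (hG' p hp (g i) (hg i) W (hgW i) (hWg i)).2.1
      rwa [hTc] at h2
    refine (Finset.prod_le_prod (fun i _ => Nat.cast_nonneg _) h1).trans (le_of_eq ?_)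
    rw [Finset.prod_mul_distrib, Finset.prod_const, Finset.card_univ, Fintype.card_fin]
  rw [hord]
  have hO0 : 0 ≤ ∏ i, O i := Finset.prod_nonneg fun i _ => Nat.cast_nonneg _
  calc (({h : Fin k → ℤ[X] | (∀ i, h i ∈ traceSet q (g i)) ∧ ¬ GoodR q h}.ncard : ℕ) : ℝ)
      ≤ ((k : ℝ) + k * k) * (4 * ε) * ∏ i, ((T i).card : ℝ) := hbad.trans hmain
    _ ≤ ((k : ℝ) + k * k) * (4 * ε) * (3 ^ k * ∏ i, O i) :=
        mul_le_mul_of_nonneg_left hprod (by positivity)
    _ = ((k : ℝ) + k * k) * 4 * 3 ^ k * ε * ∏ i, O i := by ring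

end Pool.Agent.Helper19.AAE
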